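import Mathlib

/-!
# The Gamma function on vertical lines: comparison of two points

`gam_lip`: `‖Γ(a + i t')‖ ≤ exp(B |t' - t|) ‖Γ(a + i t)‖` with `B = π / 2 + 1 / (2 a)`.
`gam_four`: `‖Γ(a + i t')‖ ≤ C (1 + |t|)^(-4) exp(B |t' - t|) ‖Γ(a + 4 + i t)‖`.
-/

set_option autoImplicit false

namespace Pool.Agent.H55.WG

open Filter Topology Finset

private theorem atan_step {x y : ℝ} (hx : 0 ≤ x) (hxy : x ≤ y) :
    (y - x) / (1 + y ^ 2) ≤ Real.arctan y - Real.arctan x := by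
  have h1 := (convex_Icc x y).mul_sub_le_image_sub_of_le_deriv (f := Real.arctan) (C := 1 / (1 + y ^ 2))
    Real.continuous_arctan.continuousOn (Real.differentiable_arctan.differentiableOn)
    (fun z hz => by
      rw [interior_Icc] at hz
      rw [Real.deriv_arctan]
      apply one_div_le_one_div_of_le
      · positivity
      · have := hz.1
        have := hz.2
        nlinarith) x ⟨le_rfl, hxy⟩ y ⟨hxy, le_rfl⟩ hxy
  calc (y - x) / (1 + y ^ 2) = 1 / (1 + y ^ 2) * (y - x) := by ring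
    _ ≤ _ := h1

private theorem sum_le {a : ℝ} (ha : 0 < a) {τ : ℝ} (hτ : 0 < τ) (n : ℕ) :
    ∑ j ∈ range (n + 1), τ / ((a + j) ^ 2 + τ ^ 2) ≤ 1 / (2 * a) + (Real.arctan ((a + n) / τ) - Real.arctan (a / τ)) := by
  induction n with
  | zero =>
    rw [zero_add, sum_range_one, Nat.cast_zero, add_zero, sub_self, add_zero,
      div_le_div_iff₀ (by positivity) (by positivity)]
    nlinarith [sq_nonneg (a - τ)]
  | succ n ih =>
    rw [sum_range_succ]
    have h0 : (0 : ℝ) ≤ n := Nat.cast_nonneg n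
    have h1 := atan_step (x := (a + n) / τ) (y := (a + (n + 1 : ℕ)) / τ) (by positivity)
      (by
        apply div_le_div_of_nonneg_right _ hτ.le
        push_cast
        linarith)
    have h2 : ((a + (n + 1 : ℕ)) / τ - (a + n) / τ) / (1 + ((a + (n + 1 : ℕ)) / τ) ^ 2) =
        τ / ((a + (n + 1 : ℕ)) ^ 2 + τ ^ 2) := by
      push_cast
      field_simp
      ring
    rw [h2] at h1
    linarith

private theorem sum_bd {a : ℝ} (ha : 0 < a) (τ : ℝ) (n : ℕ) :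
    |∑ j ∈ range (n + 1), τ / ((a + j) ^ 2 + τ ^ 2)| ≤ Real.pi / 2 + 1 / (2 * a) := by
  have key : ∀ τ : ℝ, 0 < τ → |∑ j ∈ range (n + 1), τ / ((a + j) ^ 2 + τ ^ 2)| ≤ Real.pi / 2 + 1 / (2 * a) := by
    intro τ hτ
    rw [abs_of_nonneg (sum_nonneg fun j _ => by positivity)]
    have h1 := sum_le ha hτ n
    have h2 := Real.arctan_lt_pi_div_two ((a + n) / τ)
    have h3 : 0 ≤ Real.arctan (a / τ) := Real.arctan_nonneg.2 (by positivity)
    linarith
  rcases lt_trichotomy τ 0 with h | h | h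
  · have h1 := key (-τ) (by linarith)
    have h2 : ∑ j ∈ range (n + 1), τ / ((a + j) ^ 2 + τ ^ 2) = -∑ j ∈ range (n + 1), -τ / ((a + j) ^ 2 + (-τ) ^ 2) := by
      rw [← sum_neg_distrib]
      exact sum_congr rfl fun j _ => by ring
    rw [h2, abs_neg]
    exact h1
  · rw [h]
    simp only [zero_div, sum_const_zero, abs_zero]
    positivity
  · exact key τ h

private theorem prod_le {a : ℝ} (ha : 0 < a) (t t' : ℝ) (n : ℕ) :
    ∏ j ∈ range (n + 1), ((a + j) ^ 2 + t ^ 2) ≤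
      Real.exp (2 * (Real.pi / 2 + 1 / (2 * a)) * |t - t'|) * ∏ j ∈ range (n + 1), ((a + j) ^ 2 + t' ^ 2) := by
  obtain ⟨g, hg⟩ : ∃ g : ℝ → ℝ, g = fun τ => ∑ j ∈ range (n + 1), Real.log ((a + j) ^ 2 + τ ^ 2) := ⟨_, rfl⟩
  have hpos : ∀ (τ : ℝ) (j : ℕ), 0 < (a + j) ^ 2 + τ ^ 2 := fun τ j => by
    have : (0 : ℝ) ≤ j := Nat.cast_nonneg j
    positivity
  have hd : ∀ τ : ℝ, HasDerivAt g (∑ j ∈ range (n + 1), 2 * τ / ((a + j) ^ 2 + τ ^ 2)) τ := by
    intro τ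
    rw [hg]
    apply HasDerivAt.fun_sum
    intro j _
    have h1 : HasDerivAt (fun τ : ℝ => (a + j) ^ 2 + τ ^ 2) (2 * τ) τ := by
      have h2 := (hasDerivAt_pow 2 τ).const_add ((a + j) ^ 2)
      simpa using h2
    exact h1.log (hpos τ j).ne'
  have hb : ∀ τ : ℝ, ‖∑ j ∈ range (n + 1), 2 * τ / ((a + j) ^ 2 + τ ^ 2)‖ ≤ 2 * (Real.pi / 2 + 1 / (2 * a)) := by
    intro τ
    have h1 : ∑ j ∈ range (n + 1), 2 * τ / ((a + j) ^ 2 + τ ^ 2) =
        2 * ∑ j ∈ range (n + 1), τ / ((a + j) ^ 2 + τ ^ 2) := by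
      rw [mul_sum]
      exact sum_congr rfl fun j _ => by ring
    rw [h1, Real.norm_eq_abs, abs_mul, abs_of_pos (two_pos : (0 : ℝ) < 2)]
    exact mul_le_mul_of_nonneg_left (sum_bd ha τ n) two_pos.le
  have h1 := convex_univ.norm_image_sub_le_of_norm_hasDerivWithin_le (f := g) (x := t') (y := t)
    (fun τ _ => (hd τ).hasDerivWithinAt) (fun τ _ => hb τ) (Set.mem_univ _) (Set.mem_univ _)
  rw [Real.norm_eq_abs, Real.norm_eq_abs] at h1
  have h2 : g t ≤ 2 * (Real.pi / 2 + 1 / (2 * a)) * |t - t'| + g t' := by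
    have := le_abs_self (g t - g t')
    linarith
  have h3 : ∀ τ : ℝ, ∏ j ∈ range (n + 1), ((a + j) ^ 2 + τ ^ 2) = Real.exp (g τ) := by
    intro τ
    rw [hg]
    show _ = Real.exp (∑ j ∈ range (n + 1), Real.log ((a + j) ^ 2 + τ ^ 2))
    rw [Real.exp_sum]
    exact prod_congr rfl fun j _ => (Real.exp_log (hpos τ j)).symm
  rw [h3, h3, ← Real.exp_add]
  exact Real.exp_le_exp.2 h2

private theorem nsq (a t : ℝ) (j : ℕ) : ‖((a : ℂ) + t * Complex.I) + j‖ ^ 2 = (a + j) ^ 2 + t ^ 2 := by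
  rw [Complex.sq_norm, Complex.normSq_apply]
  simp
  ring

private theorem prod_norm {a : ℝ} (ha : 0 < a) (t t' : ℝ) (n : ℕ) :
    ∏ j ∈ range (n + 1), ‖((a : ℂ) + t * Complex.I) + j‖ ≤
      Real.exp ((Real.pi / 2 + 1 / (2 * a)) * |t - t'|) * ∏ j ∈ range (n + 1), ‖((a : ℂ) + t' * Complex.I) + j‖ := by
  have h1 := prod_le ha t t' n
  have h2 : ∀ τ : ℝ, (∏ j ∈ range (n + 1), ‖((a : ℂ) + τ * Complex.I) + j‖) ^ 2 =
      ∏ j ∈ range (n + 1), ((a + j) ^ 2 + τ ^ 2) := by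
    intro τ
    rw [← prod_pow]
    exact prod_congr rfl fun j _ => nsq a τ j
  rw [← h2, ← h2] at h1
  have h3 : Real.exp (2 * (Real.pi / 2 + 1 / (2 * a)) * |t - t'|) =
      (Real.exp ((Real.pi / 2 + 1 / (2 * a)) * |t - t'|)) ^ 2 := by
    rw [← Real.exp_nat_mul]
    congr 1
    push_cast
    ring
  rw [h3, ← mul_pow] at h1
  exact le_of_sq_le_sq h1 (mul_nonneg (Real.exp_pos _).le (prod_nonneg fun j _ => norm_nonneg _))

/-- comparison of two points on the same vertical line -/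
theorem gam_lip {a : ℝ} (ha : 0 < a) (t t' : ℝ) :
    ‖Complex.Gamma ((a : ℂ) + t' * Complex.I)‖ ≤
      Real.exp ((Real.pi / 2 + 1 / (2 * a)) * |t' - t|) * ‖Complex.Gamma ((a : ℂ) + t * Complex.I)‖ := by
  have h1 := (Complex.GammaSeq_tendsto_Gamma ((a : ℂ) + t' * Complex.I)).norm
  have h2 := ((Complex.GammaSeq_tendsto_Gamma ((a : ℂ) + t * Complex.I)).norm).const_mul
    (Real.exp ((Real.pi / 2 + 1 / (2 * a)) * |t' - t|))
  refine le_of_tendsto_of_tendsto h1 h2 ?_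
  filter_upwards [eventually_gt_atTop 0] with n hn
  have hne : ∀ (τ : ℝ) (j : ℕ), ((a : ℂ) + τ * Complex.I) + j ≠ 0 := by
    intro τ j h0
    have h3 := congrArg Complex.re h0
    simp at h3
    have : (0 : ℝ) ≤ j := Nat.cast_nonneg j
    linarith
  have hp : ∀ τ : ℝ, 0 < ∏ j ∈ range (n + 1), ‖((a : ℂ) + τ * Complex.I) + j‖ := fun τ =>
    prod_pos fun j _ => norm_pos_iff.2 (hne τ j)
  have hs : ∀ τ : ℝ, ‖Complex.GammaSeq ((a : ℂ) + τ * Complex.I) n‖ =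
      (n : ℝ) ^ a * n.factorial / ∏ j ∈ range (n + 1), ‖((a : ℂ) + τ * Complex.I) + j‖ := by
    intro τ
    unfold Complex.GammaSeq
    rw [norm_div, norm_mul, norm_prod, Complex.norm_natCast_cpow_of_pos hn, Complex.norm_natCast]
    simp
  rw [hs, hs, ← mul_div_assoc, div_le_div_iff₀ (hp t') (hp t)]
  have h3 := prod_norm ha t t' n
  rw [abs_sub_comm t t'] at h3
  have h4 : (0 : ℝ) ≤ (n : ℝ) ^ a * n.factorial := by positivity
  calc (n : ℝ) ^ a * n.factorial * ∏ j ∈ range (n + 1), ‖((a : ℂ) + t * Complex.I) + j‖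
      ≤ (n : ℝ) ^ a * n.factorial * (Real.exp ((Real.pi / 2 + 1 / (2 * a)) * |t' - t|) *
          ∏ j ∈ range (n + 1), ‖((a : ℂ) + t' * Complex.I) + j‖) := mul_le_mul_of_nonneg_left h3 h4
    _ = _ := by ring

private theorem norm_lo {a : ℝ} (ha : 0 < a) (t : ℝ) :
    min a 1 / 2 * (1 + |t|) ≤ ‖(a : ℂ) + t * Complex.I‖ := by
  have h1 : |a| ≤ ‖(a : ℂ) + t * Complex.I‖ := by
    have := Complex.abs_re_le_norm ((a : ℂ) + t * Complex.I)
    simpa using this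
  have h2 : |t| ≤ ‖(a : ℂ) + t * Complex.I‖ := by
    have := Complex.abs_im_le_norm ((a : ℂ) + t * Complex.I)
    simpa using this
  rw [abs_of_pos ha] at h1
  have h3 : min a 1 ≤ a := min_le_left _ _
  have h4 : min a 1 ≤ 1 := min_le_right _ _
  have h5 := abs_nonneg t
  nlinarith

/-- comparison of a point on the line `a` with a point on the line `a + 4` -/
theorem gam_four {a : ℝ} (ha : 0 < a) : ∃ C : ℝ, 0 < C ∧ ∀ t t' : ℝ,
    ‖Complex.Gamma ((a : ℂ) + t' * Complex.I)‖ ≤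
      C * ((1 + |t|) ^ 4)⁻¹ * Real.exp ((Real.pi / 2 + 1 / (2 * a)) * |t' - t|) *
        ‖Complex.Gamma (((a + 4 : ℝ) : ℂ) + t * Complex.I)‖ := by
  obtain ⟨m, hm⟩ : ∃ m : ℝ, m = min a 1 / 2 := ⟨_, rfl⟩
  have hm0 : 0 < m := by
    rw [hm]
    have : 0 < min a 1 := lt_min ha one_pos
    positivity
  refine ⟨(m ^ 4)⁻¹, by positivity, fun t t' => ?_⟩
  obtain ⟨z, hz⟩ : ∃ z : ℂ, z = (a : ℂ) + t * Complex.I := ⟨_, rfl⟩
  have hre : ∀ k : ℝ, 0 ≤ k → z + (k : ℂ) ≠ 0 := by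
    intro k hk h0
    have h3 := congrArg Complex.re h0
    rw [hz] at h3
    simp at h3
    linarith
  have e : Complex.Gamma (z + 4) = (z + 3) * ((z + 2) * ((z + 1) * (z * Complex.Gamma z))) := by
    have e0 := Complex.Gamma_add_one z (by simpa using hre 0 le_rfl)
    have e1 := Complex.Gamma_add_one (z + 1) (by simpa using hre 1 zero_le_one)
    have e2 := Complex.Gamma_add_one (z + 2) (by simpa using hre 2 (by norm_num))
    have e3 := Complex.Gamma_add_one (z + 3) (by simpa using hre 3 (by norm_num))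
    rw [show z + 4 = z + 3 + 1 by ring, e3, show z + 3 = z + 2 + 1 by ring, e2, show z + 2 = z + 1 + 1 by ring, e1, e0]
  have hlo : ∀ k : ℝ, 0 ≤ k → m * (1 + |t|) ≤ ‖z + (k : ℂ)‖ := by
    intro k hk
    have h1 := norm_lo (a := a + k) (by linarith) t
    have h2 : z + (k : ℂ) = ((a + k : ℝ) : ℂ) + t * Complex.I := by
      rw [hz]
      push_cast
      ring
    rw [h2]
    refine le_trans ?_ h1
    refine mul_le_mul_of_nonneg_right ?_ (by positivity)
    rw [hm]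
    have : min a 1 ≤ min (a + k) 1 := min_le_min_right 1 (by linarith)
    linarith
  have h4 : (m * (1 + |t|)) ^ 4 * ‖Complex.Gamma z‖ ≤ ‖Complex.Gamma (z + 4)‖ := by
    rw [e, norm_mul, norm_mul, norm_mul, norm_mul]
    have hb0 : 0 ≤ m * (1 + |t|) := by positivity
    have l0 := hlo 0 le_rfl
    have l1 := hlo 1 zero_le_one
    have l2 := hlo 2 (by norm_num)
    have l3 := hlo 3 (by norm_num)
    rw [Complex.ofReal_zero, add_zero] at l0
    rw [Complex.ofReal_one] at l1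
    have c2 : ((2 : ℝ) : ℂ) = 2 := by norm_num
    have c3 : ((3 : ℝ) : ℂ) = 3 := by norm_num
    rw [c2] at l2
    rw [c3] at l3
    calc (m * (1 + |t|)) ^ 4 * ‖Complex.Gamma z‖
        = m * (1 + |t|) * (m * (1 + |t|) * (m * (1 + |t|) * (m * (1 + |t|) * ‖Complex.Gamma z‖))) := by ring
      _ ≤ ‖z + 3‖ * (‖z + 2‖ * (‖z + 1‖ * (‖z‖ * ‖Complex.Gamma z‖))) := by gcongr
  have h5 := gam_lip ha t t'
  rw [← hz] at h5
  have h6 : ((a + 4 : ℝ) : ℂ) + t * Complex.I = z + 4 := by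
    rw [hz]
    push_cast
    ring
  rw [h6]
  have hE := Real.exp_pos ((Real.pi / 2 + 1 / (2 * a)) * |t' - t|)
  have h7 : ‖Complex.Gamma z‖ ≤ (m ^ 4)⁻¹ * ((1 + |t|) ^ 4)⁻¹ * ‖Complex.Gamma (z + 4)‖ := by
    rw [← mul_inv, ← mul_pow, inv_mul_eq_div, le_div_iff₀ (by positivity)]
    linarith
  calc ‖Complex.Gamma ((a : ℂ) + t' * Complex.I)‖
      ≤ Real.exp ((Real.pi / 2 + 1 / (2 * a)) * |t' - t|) * ‖Complex.Gamma z‖ := h5
    _ ≤ Real.exp ((Real.pi / 2 + 1 / (2 * a)) * |t' - t|) * ((m ^ 4)⁻¹ * ((1 + |t|) ^ 4)⁻¹ * ‖Complex.Gamma (z + 4)‖) :=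
        mul_le_mul_of_nonneg_left h7 hE.le
    _ = _ := by ring

end Pool.Agent.H55.WG
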